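import Mathlib

/-!
# There is no universal countable right-orderable group

For every set `S` of integers let `G_S` be the set of the quadruples `(a, b, c, t)`, where `a` and
`b` are finitely supported functions from the integers to the integers and `c`, `t` are integers,
with the product
`(a, b, c, t) (a', b', c', t') = (a + t.a', b + t.b', c + c' + β_S (a, t.b'), t + t')`.
Here `t.a` is the translate of `a` by `t`, and `β_S` is the translation invariant bilinear form with
`β_S (e_i, e_j) = 1` if `j - i ∈ S` and `β_S (e_i, e_j) = 0` otherwise. The lexicographic order of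
`(t, a, b, c)` is a total order which is invariant under multiplication on both sides. For
`x = (e_0, 0, 0, 0)`, `y = (0, e_0, 0, 0)`, `z = (0, 0, 0, 1)` the elements `x` and `z^n y z^(-n)`
commute exactly if `n ∉ S`.

A countable group `U` contains only countably many triples `(x, y, z)`, hence for some set `S` the
subgroup of `G_S` generated by `x`, `y`, `z` does not embed in `U`.
-/

set_option autoImplicit false

universe u

namespace Pool.Agent.Results.MP_49314d_al.NoUniversal

/-- A group is right-orderable if it has a total order `≤` such that `x ≤ y` implies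
`x * z ≤ y * z`. -/
def RightOrderable (G : Type*) [Group G] : Prop :=
  ∃ _ : LinearOrder G, ∀ x y z : G, x ≤ y → x * z ≤ y * z

/-- A group is orderable (on both sides) if it has a total order `≤` such that `x ≤ y` implies
`x * z ≤ y * z` and `z * x ≤ z * y`. -/
def BiOrderable (G : Type*) [Group G] : Prop :=
  ∃ _ : LinearOrder G, ∀ x y z : G, x ≤ y → x * z ≤ y * z ∧ z * x ≤ z * y

/-- `U` is a universal countable right-orderable group: it is countable and right-orderable, and
every countable right-orderable group is isomorphic to a subgroup of `U`. -/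
def IsUniversal (U : Type u) [Group U] : Prop :=
  Countable U ∧ RightOrderable U ∧
    ∀ (G : Type u) [Group G], Countable G → RightOrderable G →
      ∃ f : G →* U, Function.Injective f

/-! ## The translation and the form -/

/-- The translation by `t`. -/
noncomputable def sh (t : ℤ) : (ℤ →₀ ℤ) ≃+ (ℤ →₀ ℤ) := Finsupp.domCongr (Equiv.addRight t)

lemma sh_single (t i m : ℤ) : sh t (Finsupp.single i m) = Finsupp.single (i + t) m := by
  rw [sh, Finsupp.domCongr_apply, Finsupp.equivMapDomain_single]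
  rfl

lemma sh_apply (t : ℤ) (a : ℤ →₀ ℤ) (i : ℤ) : sh t a i = a (i - t) := by
  rw [sh, Finsupp.domCongr_apply, Finsupp.equivMapDomain_apply]
  rfl

lemma sh_zero (a : ℤ →₀ ℤ) : sh 0 a = a := by
  ext i
  rw [sh_apply, sub_zero]

lemma sh_add (s t : ℤ) (a : ℤ →₀ ℤ) : sh (s + t) a = sh s (sh t a) := by
  ext i
  rw [sh_apply, sh_apply, sh_apply, sub_sub]

/-- The bilinear form with `β (e_i) (e_j) = s (j - i)`. -/
noncomputable def form (s : ℤ → ℤ) : (ℤ →₀ ℤ) →+ (ℤ →₀ ℤ) →+ ℤ :=
  Finsupp.liftAddHom fun i => zmultiplesHom _ (Finsupp.liftAddHom fun j =>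
    zmultiplesHom ℤ (s (j - i)))

lemma form_single (s : ℤ → ℤ) (i j m n : ℤ) :
    form s (Finsupp.single i m) (Finsupp.single j n) = m * n * s (j - i) := by
  simp [form, mul_assoc]

lemma form_sh (s : ℤ → ℤ) (t : ℤ) (a b : ℤ →₀ ℤ) : form s (sh t a) (sh t b) = form s a b := by
  induction a using Finsupp.induction_linear with
  | zero => simp
  | add f g hf hg => simp only [map_add, AddMonoidHom.add_apply, hf, hg]
  | single i m =>
    induction b using Finsupp.induction_linear with
    | zero => simp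
    | add f g hf hg => simp only [map_add, hf, hg]
    | single j n => rw [sh_single, sh_single, form_single, form_single, add_sub_add_right_eq_sub]

/-! ## The group -/

/-- The quadruples `(a, b, c, t)`. -/
@[ext]
structure GS (s : ℤ → ℤ) where
  a : ℤ →₀ ℤ
  b : ℤ →₀ ℤ
  c : ℤ
  t : ℤ

namespace GS

variable {s : ℤ → ℤ}

noncomputable instance : Mul (GS s) :=
  ⟨fun x y => ⟨x.a + sh x.t y.a, x.b + sh x.t y.b, x.c + y.c + form s x.a (sh x.t y.b), x.t + y.t⟩⟩

noncomputable instance : One (GS s) := ⟨⟨0, 0, 0, 0⟩⟩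

noncomputable instance : Inv (GS s) :=
  ⟨fun x => ⟨-sh (-x.t) x.a, -sh (-x.t) x.b, -x.c + form s x.a x.b, -x.t⟩⟩

@[simp] lemma mul_a (x y : GS s) : (x * y).a = x.a + sh x.t y.a := rfl
@[simp] lemma mul_b (x y : GS s) : (x * y).b = x.b + sh x.t y.b := rfl
@[simp] lemma mul_c (x y : GS s) : (x * y).c = x.c + y.c + form s x.a (sh x.t y.b) := rfl
@[simp] lemma mul_t (x y : GS s) : (x * y).t = x.t + y.t := rfl
@[simp] lemma one_a : (1 : GS s).a = 0 := rfl
@[simp] lemma one_b : (1 : GS s).b = 0 := rfl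
@[simp] lemma one_c : (1 : GS s).c = 0 := rfl
@[simp] lemma one_t : (1 : GS s).t = 0 := rfl
@[simp] lemma inv_a (x : GS s) : (x⁻¹).a = -sh (-x.t) x.a := rfl
@[simp] lemma inv_b (x : GS s) : (x⁻¹).b = -sh (-x.t) x.b := rfl
@[simp] lemma inv_c (x : GS s) : (x⁻¹).c = -x.c + form s x.a x.b := rfl
@[simp] lemma inv_t (x : GS s) : (x⁻¹).t = -x.t := rfl

noncomputable instance : Group (GS s) := Group.ofLeftAxioms
  (by
    intro x y z
    ext1
    · simp only [mul_a, mul_t, map_add, sh_add, add_assoc]
    · simp only [mul_b, mul_t, map_add, sh_add, add_assoc]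
    · simp only [mul_a, mul_b, mul_c, mul_t, map_add, sh_add, AddMonoidHom.add_apply, form_sh]
      ring
    · simp only [mul_t, add_assoc])
  (by
    intro x
    ext1
    · simp [sh_zero]
    · simp [sh_zero]
    · simp
    · simp)
  (by
    intro x
    ext1
    · simp
    · simp
    · simp only [mul_c, inv_c, inv_a, inv_t, map_neg, AddMonoidHom.neg_apply, form_sh, one_c]
      ring
    · simp)

instance : Countable (GS s) := by
  have : Function.Injective (fun x : GS s => (x.a, x.b, x.c, x.t)) := by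
    intro x y h
    simp only [Prod.mk.injEq] at h
    exact GS.ext h.1 h.2.1 h.2.2.1 h.2.2.2
  exact this.countable

/-- The lexicographic order of `(t, a, b, c)`. -/
def key (x : GS s) : ℤ ×ₗ (Lex (ℤ →₀ ℤ) ×ₗ (Lex (ℤ →₀ ℤ) ×ₗ ℤ)) :=
  toLex (x.t, toLex (toLex x.a, toLex (toLex x.b, x.c)))

lemma key_injective : Function.Injective (key (s := s)) := by
  intro x y h
  have h1 : (x.t, toLex (toLex x.a, toLex (toLex x.b, x.c))) =
    (y.t, toLex (toLex y.a, toLex (toLex y.b, y.c))) := toLex.injective h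
  have h2 := toLex.injective (congrArg Prod.snd h1)
  have h3 := toLex.injective (congrArg Prod.snd h2)
  exact GS.ext (toLex.injective (congrArg Prod.fst h2)) (toLex.injective (congrArg Prod.fst h3))
    (congrArg Prod.snd h3) (congrArg Prod.fst h1)

noncomputable instance : LinearOrder (GS s) := LinearOrder.lift' key key_injective

lemma le_iff (x y : GS s) : x ≤ y ↔ x.t < y.t ∨ x.t = y.t ∧ (toLex x.a < toLex y.a ∨ x.a = y.a ∧
    (toLex x.b < toLex y.b ∨ x.b = y.b ∧ x.c ≤ y.c)) := by
  show key x ≤ key y ↔ _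
  rw [key, key, Prod.Lex.toLex_le_toLex]
  simp only [Prod.Lex.toLex_le_toLex, toLex_inj]

lemma sh_lt (t : ℤ) {a b : ℤ →₀ ℤ} (h : toLex a < toLex b) : toLex (sh t a) < toLex (sh t b) := by
  obtain ⟨i, hi, hlt⟩ := h
  refine ⟨i + t, fun j hj => ?_, ?_⟩
  · have := hi (j - t) (by omega)
    show sh t a j = sh t b j
    rw [sh_apply, sh_apply]
    exact this
  · show sh t a (i + t) < sh t b (i + t)
    rw [sh_apply, sh_apply, add_sub_cancel_right]
    exact hlt

lemma add_right_lt {a b : ℤ →₀ ℤ} (c : ℤ →₀ ℤ) (h : toLex a < toLex b) :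
    toLex (a + c) < toLex (b + c) := by
  have := add_lt_add_left h (toLex c)
  exact this

lemma add_left_lt {a b : ℤ →₀ ℤ} (c : ℤ →₀ ℤ) (h : toLex a < toLex b) :
    toLex (c + a) < toLex (c + b) := by
  rw [add_comm c a, add_comm c b]
  exact add_right_lt c h

lemma mul_le_right (x y z : GS s) (h : x ≤ y) : x * z ≤ y * z := by
  rw [le_iff] at h ⊢
  simp only [mul_a, mul_b, mul_c, mul_t]
  rcases h with h | ⟨h1, h | ⟨h2, h | ⟨h3, h⟩⟩⟩
  · left
    omega
  · right
    rw [h1]
    exact ⟨rfl, Or.inl (add_right_lt _ h)⟩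
  · right
    rw [h1, h2]
    exact ⟨rfl, Or.inr ⟨rfl, Or.inl (add_right_lt _ h)⟩⟩
  · right
    rw [h1, h2, h3]
    exact ⟨rfl, Or.inr ⟨rfl, Or.inr ⟨rfl, by omega⟩⟩⟩

lemma mul_le_left (x y z : GS s) (h : x ≤ y) : z * x ≤ z * y := by
  rw [le_iff] at h ⊢
  simp only [mul_a, mul_b, mul_c, mul_t]
  rcases h with h | ⟨h1, h | ⟨h2, h | ⟨h3, h⟩⟩⟩
  · left
    omega
  · right
    rw [h1]
    exact ⟨rfl, Or.inl (add_left_lt _ (sh_lt _ h))⟩
  · right
    rw [h1, h2]
    exact ⟨rfl, Or.inr ⟨rfl, Or.inl (add_left_lt _ (sh_lt _ h))⟩⟩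
  · right
    rw [h1, h2, h3]
    exact ⟨rfl, Or.inr ⟨rfl, Or.inr ⟨rfl, by omega⟩⟩⟩

/-- The first generator. -/
noncomputable def x₀ (s : ℤ → ℤ) : GS s := ⟨Finsupp.single 0 1, 0, 0, 0⟩

/-- The second generator. -/
noncomputable def y₀ (s : ℤ → ℤ) : GS s := ⟨0, Finsupp.single 0 1, 0, 0⟩

/-- The third generator. -/
def z₀ (s : ℤ → ℤ) : GS s := ⟨0, 0, 0, 1⟩

lemma z_pow (n : ℕ) : z₀ s ^ n = ⟨0, 0, 0, n⟩ := by
  induction n with
  | zero => rfl
  | succ n ih =>
    rw [pow_succ, ih]
    ext1
    · simp [z₀]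
    · simp [z₀]
    · simp [z₀]
    · simp [z₀]

lemma conj_y (n : ℕ) : z₀ s ^ n * y₀ s * (z₀ s ^ n)⁻¹ = ⟨0, Finsupp.single (n : ℤ) 1, 0, 0⟩ := by
  rw [z_pow]
  ext1
  · simp [y₀]
  · simp [y₀, sh_single]
  · simp [y₀]
  · simp [y₀]

lemma commute_iff (n : ℕ) :
    x₀ s * (z₀ s ^ n * y₀ s * (z₀ s ^ n)⁻¹) = z₀ s ^ n * y₀ s * (z₀ s ^ n)⁻¹ * x₀ s ↔
      s n = 0 := by
  rw [conj_y]
  constructor
  · intro h
    have := congrArg GS.c h
    simpa [x₀, sh_zero, form_single] using this
  · intro h
    ext1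
    · simp [x₀, sh_zero]
    · simp [x₀, sh_zero]
    · simp [x₀, sh_zero, form_single, h]
    · simp [x₀]

end GS

/-- The set of the natural numbers `n` such that `x` does not commute with `z^n y z^(-n)`. -/
def pattern {G : Type*} [Group G] (x y z : G) : Set ℕ :=
  {n | x * (z ^ n * y * (z ^ n)⁻¹) ≠ z ^ n * y * (z ^ n)⁻¹ * x}

lemma pattern_map {G H : Type*} [Group G] [Group H] (f : G →* H) (hf : Function.Injective f)
    (x y z : G) : pattern (f x) (f y) (f z) = pattern x y z := by
  ext n
  simp only [pattern, Set.mem_ofPred_eq, ← map_pow, ← map_inv, ← map_mul, ne_eq, hf.eq_iff]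

open Classical in
lemma pattern_GS (S : Set ℕ) :
    pattern (GS.x₀ fun i => if ∃ n ∈ S, i = (n : ℤ) then 1 else 0) (GS.y₀ _) (GS.z₀ _) = S := by
  ext n
  simp only [pattern, Set.mem_ofPred_eq, ne_eq, GS.commute_iff]
  simp

/-- The statement about every countable group `U`: some 3-generated group with a total order
invariant under multiplication on both sides does not embed in `U`. -/
theorem exists_not_embed (U : Type u) [Group U] [Countable U] :
    ∃ (G : Type) (_ : Group G), Countable G ∧ Group.FG G ∧ BiOrderable G ∧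
      ∀ f : G →* U, ¬ Function.Injective f := by
  classical
  by_contra hcon
  push Not at hcon
  have key : ∀ S : Set ℕ, ∃ p : U × U × U, pattern p.1 p.2.1 p.2.2 = S := by
    intro S
    set s : ℤ → ℤ := fun i => if ∃ n ∈ S, i = (n : ℤ) then 1 else 0 with hs
    let K : Subgroup (GS s) := Subgroup.closure {GS.x₀ s, GS.y₀ s, GS.z₀ s}
    have hx : GS.x₀ s ∈ K := Subgroup.subset_closure (by simp)
    have hy : GS.y₀ s ∈ K := Subgroup.subset_closure (by simp)
    have hz : GS.z₀ s ∈ K := Subgroup.subset_closure (by simp)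
    have hFG : Group.FG K := by
      rw [Group.fg_iff_subgroup_fg]
      exact ⟨{GS.x₀ s, GS.y₀ s, GS.z₀ s}, by simp [K]⟩
    have hord : BiOrderable K :=
      ⟨inferInstance, fun x y z h => ⟨GS.mul_le_right x.1 y.1 z.1 h, GS.mul_le_left x.1 y.1 z.1 h⟩⟩
    obtain ⟨f, hf⟩ := hcon K inferInstance inferInstance hFG hord
    refine ⟨(f ⟨_, hx⟩, f ⟨_, hy⟩, f ⟨_, hz⟩), ?_⟩
    rw [pattern_map f hf]
    have h1 := pattern_map K.subtype K.subtype_injective ⟨_, hx⟩ ⟨_, hy⟩ ⟨_, hz⟩
    rw [← h1]
    exact pattern_GS S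
  have hsurj : Function.Surjective (fun p : U × U × U => pattern p.1 p.2.1 p.2.2) := key
  have hc : Countable (Set ℕ) := hsurj.countable
  obtain ⟨g, hg⟩ := (countable_iff_exists_injective _).1 hc
  exact Function.cantor_injective g hg

/-- **The answer to Q1 is no**: there is no universal countable right-orderable group. Moreover,
for every countable group `U` (right-orderable or not) there is a finitely generated group with a
total order invariant under multiplication on both sides which is not isomorphic to a subgroup of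
`U`. -/
theorem result :
    (¬ ∃ (U : Type u) (_ : Group U), IsUniversal U) ∧
    ∀ (U : Type u) [Group U] [Countable U],
      ∃ (G : Type) (_ : Group G), Countable G ∧ Group.FG G ∧ BiOrderable G ∧
        ∀ f : G →* U, ¬ Function.Injective f := by
  refine ⟨?_, fun U _ _ => exists_not_embed U⟩
  rintro ⟨U, _, hU, -, h⟩
  obtain ⟨G, _, hG, -, ⟨hord, hmul⟩, hno⟩ := exists_not_embed U
  have e : ULift.{u} G ≃* G := MulEquiv.ulift
  have h1 : RightOrderable (ULift.{u} G) := by
    refine ⟨LinearOrder.lift' e e.injective, fun x y z hxy => ?_⟩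
    show e (x * z) ≤ e (y * z)
    rw [map_mul, map_mul]
    exact (hmul (e x) (e y) (e z) hxy).1
  obtain ⟨f, hf⟩ := h (ULift.{u} G) inferInstance h1
  exact hno (f.comp e.symm.toMonoidHom) (hf.comp e.symm.injective)

end Pool.Agent.Results.MP_49314d_al.NoUniversal
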